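import Pool.Agent.H85.Gamma.KIArm
import Pool.Agent.H89.Perc.ArmExt

/-!
# Bounds for the arms of an edge and for the derivative of the one-arm probability
-/

open MeasureTheory ProbabilityTheory unitInterval

namespace Pool.Agent.H85.Gamma

open Pool.Agent.H89.Perc

/-- Supremum norm. -/
def nrm (u : Vert) : ℕ := max u.1.natAbs u.2.natAbs

/-- A connection between `0` and `u` forces two arms in disjoint boxes. -/
theorem Pr_conn_le (p : I) (S : Set Vert) (u : Vert) (s : ℕ) (h : 2 * s < nrm u) :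
    Pr p {ω | Conn ω S 0 u} ≤ arm p s ^ 2 := by
  classical
  have hsub : {ω : Config | Conn ω S 0 u} ⊆ Arm 0 s ∩ Arm u s := by
    intro ω hc
    have hc' : Conn ω S 0 u := hc
    unfold nrm at h
    refine ⟨hc'.mem_arm ?_, hc'.symm.mem_arm ?_⟩
    · simp only [Prod.fst_zero, Prod.snd_zero, sub_zero, ← Int.natCast_natAbs]
      omega
    · simp only [Prod.fst_zero, Prod.snd_zero, zero_sub, abs_neg, ← Int.natCast_natAbs]
      omega
  have hdis : Disjoint (eRect ((0 : Vert).1 - s) ((0 : Vert).1 + s) ((0 : Vert).2 - s)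
      ((0 : Vert).2 + s)) (eRect (u.1 - s) (u.1 + s) (u.2 - s) (u.2 + s)) := by
    rw [Finset.disjoint_left]
    intro e h1 h2
    rw [mem_eRect] at h1 h2
    simp only [rect, Set.mem_ofPred_eq, Prod.fst_zero, Prod.snd_zero] at h1 h2
    unfold nrm at h
    omega
  calc Pr p {ω | Conn ω S 0 u} ≤ Pr p (Arm 0 s ∩ Arm u s) := Pr_mono hsub
    _ = Pr p (Arm 0 s) * Pr p (Arm u s) :=
        Pr_inter_of_disjoint (localOn_arm 0 s) (localOn_arm u s) hdis
    _ = arm p s ^ 2 := by rw [Pr_arm u s, Pr_arm 0 s]; ring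

theorem Pr_conn_le' (p : I) (S : Set Vert) (u : Vert) (s : ℕ) (h : 2 * s < nrm u ∨ s = 0) :
    Pr p {ω | Conn ω S 0 u} ≤ arm p s ^ 2 := by
  rcases h with h | h
  · exact Pr_conn_le p S u s h
  · subst h
    rw [arm_zero, one_pow]
    exact Pr_le_one

theorem nrm_tgt (e : Edge) : nrm (src e) ≤ nrm (tgt e) + 1 := by
  obtain ⟨x, y, b⟩ := e
  cases b <;> simp [nrm, src, tgt] <;> omega

theorem Pr_PArm_le (p : I) (m : ℕ) (e : Edge) :
    Pr p (PArm m e) ≤ 2 * arm p (nrm (src e) / 2 - 1) ^ 2 := by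
  have hsub : PArm m e ⊆ {ω | Conn ω (ball 0 m) 0 (src e)} ∪ {ω | Conn ω (ball 0 m) 0 (tgt e)} := by
    rintro ω ⟨u, hu, hc⟩
    have hc' : Conn ω (ball 0 m) 0 u := hc.mono le_rfl fun f hf => by
      by_cases hfe : f = e
      · subst hfe; simp at hf
      · rwa [Function.update_of_ne hfe] at hf
    rcases hu with hu | hu
    · subst hu; exact Or.inl hc'
    · subst hu; exact Or.inr hc'
  have h1 := (Pr_mono (p := p) hsub).trans Pr_union_le
  have h2 := Pr_conn_le' p (ball 0 m) (src e) (nrm (src e) / 2 - 1) (by omega)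
  have h3 := Pr_conn_le' p (ball 0 m) (tgt e) (nrm (src e) / 2 - 1)
    (by have := nrm_tgt e; omega)
  linarith

theorem Pr_QArm_le (p : I) (m : ℕ) (e : Edge) :
    Pr p (QArm m e) ≤ 2 * arm (σ p) ((src e).2.natAbs - 1) := by
  set r := (src e).2.natAbs - 1 with hr
  have hsub : QArm m e ⊆ {ω | dual ω ∈ Arm (src e) r} ∪ {ω | dual ω ∈ Arm (lowFace e) r} := by
    rintro ω ⟨F, hF, G, hG, hc⟩
    have hc' : Conn (dual ω) (rect (-m) (m - 1) (-m) (m - 1)) F G := hc.mono le_rfl fun f hf => by
      simp only [dual, Bool.not_eq_true'] at hf ⊢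
      by_cases hfe : crossed f = e
      · rw [hfe] at hf; simp at hf
      · rwa [Function.update_of_ne hfe] at hf
    have hF2 : F.2 = (src e).2 ∨ F.2 = (src e).2 - 1 := by
      rcases hF with hF | hF
      · subst hF; exact Or.inl rfl
      · subst hF
        obtain ⟨x, y, b⟩ := e
        cases b <;> simp [lowFace, src]
    have harm : dual ω ∈ Arm F r := by
      refine hc'.mem_arm (Or.inr ?_)
      rw [← Int.natCast_natAbs]
      omega
    rcases hF with hF | hF
    · subst hF; exact Or.inl harm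
    · subst hF; exact Or.inr harm
  have h1 := (Pr_mono (p := p) hsub).trans Pr_union_le
  rw [Pr_dual_arm, Pr_dual_arm] at h1
  linarith

theorem arm_half_pos (k : ℕ) : 0 < arm half k := by
  obtain ⟨c, hc, h⟩ := armBox_lower
  rcases Nat.eq_zero_or_pos k with hk | hk
  · subst hk; rw [arm_zero]; norm_num
  · have h1 := h 0 k hk (Nat.zero_le k)
    have h2 : Pr half (ArmBox 0 0 k) ≤ arm half k := by
      refine Pr_mono ?_
      rintro ω ⟨w, hw, u, hu, hc⟩
      have hw0 : w = 0 := by
        simp only [mem_ball, Prod.fst_zero, Prod.snd_zero, Nat.cast_zero] at hw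
        ext
        · simp only [Prod.fst_zero]; omega
        · simp only [Prod.snd_zero]; omega
      subst hw0
      exact ⟨u, hu, hc⟩
    have h3 : 0 < c * Real.sqrt (((0 : ℕ) + 1) / k) := by
      have : (0 : ℝ) < k := by exact_mod_cast hk
      positivity
    linarith

/-- Regularity of the critical one-arm probability, including radius zero. -/
theorem arm_reg : ∃ C : ℝ, 1 ≤ C ∧ ∀ k R : ℕ, 1 ≤ R → k ≤ R →
    arm half k ≤ C * Real.sqrt (R / (k + 1)) * arm half R := by
  obtain ⟨c, hc, h⟩ := arm_ext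
  set a1 := arm half 1 with ha1
  have ha1p : 0 < a1 := arm_half_pos 1
  have ha1le : a1 ≤ 1 := arm_le_one
  set c' := min c 1 with hc'
  have hc'p : 0 < c' := lt_min hc one_pos
  have hc'1 : c' ≤ 1 := min_le_right _ _
  have hC1 : 1 ≤ 2 / (c' * a1) := by
    rw [le_div_iff₀ (by positivity)]
    nlinarith [mul_le_mul hc'1 ha1le ha1p.le zero_le_one]
  refine ⟨2 / (c' * a1), hC1, ?_⟩
  intro k R hR hkR
  have hRp : (0 : ℝ) < R := by exact_mod_cast hR
  -- bound in terms of `max k 1`
  have key : ∀ j : ℕ, 1 ≤ j → j ≤ R → arm half j ≤ (1 / c') * Real.sqrt (R / j) * arm half R := by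
    intro j hj hjR
    have hjp : (0 : ℝ) < j := by exact_mod_cast hj
    have h1 := h half le_rfl j R hj hjR
    have h2 : c' * Real.sqrt (j / R) * arm half j ≤ arm half R := by
      refine le_trans ?_ h1
      gcongr
      · exact arm_nonneg
      · exact min_le_left _ _
    have h3 : Real.sqrt (j / R) * Real.sqrt (R / j) = 1 := by
      rw [← Real.sqrt_mul (by positivity)]
      rw [show (j : ℝ) / R * (R / j) = 1 by field_simp, Real.sqrt_one]
    have h4 : 0 ≤ Real.sqrt (R / j) / c' := by positivity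
    have h5 := mul_le_mul_of_nonneg_left h2 h4
    calc arm half j = (Real.sqrt (j / R) * Real.sqrt (R / j)) * arm half j := by rw [h3, one_mul]
      _ = Real.sqrt (R / j) / c' * (c' * Real.sqrt (j / R) * arm half j) := by
          field_simp
      _ ≤ Real.sqrt (R / j) / c' * arm half R := h5
      _ = _ := by ring
  rcases Nat.eq_zero_or_pos k with hk | hk
  · subst hk
    have h1 := key 1 le_rfl hR
    rw [arm_zero]
    have h2 : 1 ≤ (1 / (c' * a1)) * Real.sqrt (R / 1) * arm half R := by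
      have : 1 = a1 / a1 := by field_simp
      rw [this]
      rw [div_le_iff₀ ha1p]
      calc a1 ≤ 1 / c' * Real.sqrt (R / (1 : ℕ)) * arm half R := h1
        _ = _ := by
          push_cast
          field_simp
    have h3 : (0 : ℝ) ≤ 1 / (c' * a1) * Real.sqrt (R / 1) * arm half R := by
      have := arm_nonneg (p := half) (r := R)
      positivity
    calc (1 : ℝ) ≤ 2 * (1 / (c' * a1) * Real.sqrt (R / 1) * arm half R) := by linarith
      _ = _ := by push_cast; ring_nf
  · have h1 := key k hk hkR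
    have hkp : (0 : ℝ) < k := by exact_mod_cast hk
    have hk1 : (1 : ℝ) ≤ k := by exact_mod_cast hk
    refine h1.trans ?_
    refine mul_le_mul_of_nonneg_right ?_ arm_nonneg
    have h2 : Real.sqrt (R / k) ≤ 2 * Real.sqrt (R / (k + 1)) := by
      rw [show (2 : ℝ) = Real.sqrt 4 by
        rw [show (4 : ℝ) = 2 ^ 2 by norm_num, Real.sqrt_sq (by norm_num)],
        ← Real.sqrt_mul (by norm_num)]
      apply Real.sqrt_le_sqrt
      rw [div_le_iff₀ hkp]
      have : 4 * ((R : ℝ) / (k + 1)) * k = R * (4 * k / (k + 1)) := by ring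
      rw [this]
      have : 1 ≤ 4 * (k : ℝ) / (k + 1) := by
        rw [le_div_iff₀ (by positivity)]; linarith
      nlinarith
    calc 1 / c' * Real.sqrt (R / k) ≤ 1 / c' * (2 * Real.sqrt (R / (k + 1))) := by gcongr
      _ = 2 / (c' * 1) * Real.sqrt (R / (k + 1)) := by ring
      _ ≤ 2 / (c' * a1) * Real.sqrt (R / (k + 1)) := by
          gcongr

end Pool.Agent.H85.Gamma
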