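import Pool.Agent.H85.Gamma.Second

/-!
# The mean cluster size of bond percolation on the square lattice is at least `c (1/2 - p)^{-2}`
-/

open MeasureTheory ProbabilityTheory unitInterval Filter Topology
open scoped ENNReal

namespace Pool.Agent.H85.Gamma

open Pool.Agent.H89.Perc

/-- The mean cluster size: the expected number of vertices in the open cluster of the origin. -/
noncomputable def sigma (p : I) : ℝ≥0∞ :=
  ∫⁻ ω, (({v : Vert | Conn ω Set.univ 0 v}.encard : ℕ∞) : ℝ≥0∞) ∂(μ p)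

theorem one_le_sigma (p : I) : 1 ≤ sigma p := by
  unfold sigma
  calc (1 : ℝ≥0∞) = ∫⁻ _, 1 ∂(μ p) := by simp
    _ ≤ _ := by
      refine lintegral_mono fun ω => ?_
      have h : (1 : ℕ∞) ≤ {v : Vert | Conn ω Set.univ 0 v}.encard := by
        rw [Set.one_le_encard_iff_nonempty]
        exact ⟨0, Conn.refl (Set.mem_univ _)⟩
      rw [← ENat.toENNReal_one]
      exact ENat.toENNReal_le.2 h

theorem trunc_le_sigma (p : I) (F : Finset Vert) (r : ℕ) :
    ENNReal.ofReal (∑ z ∈ F, Pr p {ω | Conn ω (ball 0 r) 0 z}) ≤ sigma p := by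
  classical
  have hmeas : ∀ z : Vert, MeasurableSet {ω : Config | Conn ω (ball 0 r) 0 z} := fun z =>
    (localOn_connB r 0 z).measurableSet
  rw [ENNReal.ofReal_sum_of_nonneg fun z _ => Pr_nonneg]
  have h1 : ∀ z ∈ F, ENNReal.ofReal (Pr p {ω | Conn ω (ball 0 r) 0 z})
      = ∫⁻ ω, Set.indicator {ω : Config | Conn ω (ball 0 r) 0 z} (fun _ => (1 : ℝ≥0∞)) ω ∂(μ p) := by
    intro z _
    rw [lintegral_indicator (hmeas z), lintegral_const, Measure.restrict_apply_univ, one_mul]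
    unfold Pr
    rw [ofReal_measureReal]
  rw [Finset.sum_congr rfl h1, ← lintegral_finsetSum F fun z _ =>
    (measurable_const.indicator (hmeas z))]
  unfold sigma
  refine lintegral_mono fun ω => ?_
  have h2 : ∑ z ∈ F, Set.indicator {ω : Config | Conn ω (ball 0 r) 0 z} (fun _ => (1 : ℝ≥0∞)) ω
      = ((F.filter (fun z => Conn ω (ball 0 r) 0 z)).card : ℝ≥0∞) := by
    rw [Finset.card_filter]
    push_cast
    refine Finset.sum_congr rfl fun z _ => ?_
    by_cases h : Conn ω (ball 0 r) 0 z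
    · rw [Set.indicator_of_mem (show ω ∈ {ω : Config | Conn ω (ball 0 r) 0 z} from h), if_pos h]
    · rw [Set.indicator_of_notMem (show ω ∉ {ω : Config | Conn ω (ball 0 r) 0 z} from h), if_neg h]
  rw [h2]
  have h3 : ((F.filter (fun z => Conn ω (ball 0 r) 0 z)).card : ℕ∞)
      ≤ {v : Vert | Conn ω Set.univ 0 v}.encard := by
    rw [← Set.encard_coe_eq_coe_finsetCard]
    refine Set.encard_le_encard ?_
    intro z hz
    rw [Finset.mem_coe, Finset.mem_filter] at hz
    exact hz.2.mono_set (Set.subset_univ _)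
  rw [← ENat.toENNReal_coe]
  exact ENat.toENNReal_le.2 h3

/-- The critical quantity `R π(R)` at `R = 5 n + 4`. -/
theorem exists_scale {C' : ℝ} (_hC' : 1 ≤ C') {x c1 : ℝ} (hx : 0 < x) (hc1 : 0 < c1)
    (h1 : ((5 * 1 + 4 : ℕ) : ℝ) * arm half (5 * 1 + 4) * x ≤ c1) :
    ∃ n : ℕ, 1 ≤ n ∧ ((5 * n + 4 : ℕ) : ℝ) * arm half (5 * n + 4) * x ≤ c1 ∧
      c1 < ((5 * (n + 1) + 4 : ℕ) : ℝ) * arm half (5 * (n + 1) + 4) * x := by
  classical
  obtain ⟨C, hC, hreg⟩ := arm_reg
  -- the quantity is unbounded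
  have hex : ∃ n : ℕ, c1 < ((5 * (n + 1) + 4 : ℕ) : ℝ) * arm half (5 * (n + 1) + 4) * x := by
    have ha := arm_half_pos 1
    obtain ⟨N, hN⟩ := exists_nat_gt ((c1 * C / (arm half 1 * x)) ^ 2)
    refine ⟨N, ?_⟩
    set R := 5 * (N + 1) + 4 with hR
    have hR1 : 1 ≤ R := by omega
    have hRp : (0 : ℝ) < R := by exact_mod_cast hR1
    have h2 := hreg 1 R hR1 hR1
    have haR := arm_half_pos R
    have h3 : (R : ℝ) * arm half R ≥ arm half 1 * Real.sqrt R / C := by
      have h4 : Real.sqrt ((R : ℝ) / ((1 : ℕ) + 1)) ≤ Real.sqrt R := by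
        apply Real.sqrt_le_sqrt
        rw [div_le_iff₀ (by norm_num)]
        push_cast
        linarith
      have h5 : arm half 1 ≤ C * Real.sqrt R * arm half R := by
        refine h2.trans ?_
        gcongr
      have h6 : Real.sqrt R * Real.sqrt R = R := Real.mul_self_sqrt hRp.le
      rw [ge_iff_le, div_le_iff₀ (by linarith)]
      calc arm half 1 * Real.sqrt R ≤ (C * Real.sqrt R * arm half R) * Real.sqrt R := by gcongr
        _ = (Real.sqrt R * Real.sqrt R) * arm half R * C := by ring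
        _ = (R : ℝ) * arm half R * C := by rw [h6]
    have h7 : c1 * C / (arm half 1 * x) < Real.sqrt R := by
      apply Real.lt_sqrt_of_sq_lt
      have : (N : ℝ) ≤ R := by exact_mod_cast (by omega : N ≤ R)
      linarith
    rw [div_lt_iff₀ (by positivity)] at h7
    calc c1 = (c1 * C) / C := by field_simp
      _ < (Real.sqrt R * (arm half 1 * x)) / C := by
          apply div_lt_div_of_pos_right h7; linarith
      _ = (arm half 1 * Real.sqrt R / C) * x := by ring
      _ ≤ ((R : ℝ) * arm half R) * x := by gcongr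
  set n := Nat.find hex with hn
  have hn1 := Nat.find_spec hex
  have hmin : ∀ m < n, ¬ c1 < ((5 * (m + 1) + 4 : ℕ) : ℝ) * arm half (5 * (m + 1) + 4) * x :=
    fun m hm => Nat.find_min hex hm
  have hnpos : 1 ≤ n := by
    by_contra hc
    have h0 : n = 0 := by omega
    rw [← hn, h0] at hn1
    exact absurd hn1 (not_lt.2 h1)
  refine ⟨n, hnpos, ?_, hn1⟩
  have := hmin (n - 1) (by omega)
  rw [show n - 1 + 1 = n by omega] at this
  exact not_lt.1 this

/-- The main estimate. -/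
theorem sigma_lower : ∃ c : ℝ, 0 < c ∧ ∀ p : I, (p : ℝ) < 1 / 2 →
    ENNReal.ofReal (c / (1 / 2 - (p : ℝ)) ^ 2) ≤ sigma p := by
  obtain ⟨c1, hc1, hwin⟩ := window
  obtain ⟨c2, hc2, htr⟩ := trunc_lower
  set c : ℝ := min (c2 * c1 ^ 2 / 784) (c1 ^ 2 / 81) with hc
  have hcp : 0 < c := lt_min (by positivity) (by positivity)
  refine ⟨c, hcp, ?_⟩
  intro p hp
  set x : ℝ := 1 / 2 - (p : ℝ) with hx
  have hxp : 0 < x := by rw [hx]; linarith
  by_cases h1 : ((5 * 1 + 4 : ℕ) : ℝ) * arm half (5 * 1 + 4) * x ≤ c1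
  · obtain ⟨n, hn, h2, h3⟩ := exists_scale le_rfl hxp hc1 h1
    set R := 5 * n + 4 with hR
    have hnp : (1 : ℝ) ≤ n := by exact_mod_cast hn
    have hRp : (0 : ℝ) < R := by positivity
    have haR := arm_half_pos R
    have h4 : arm half R / 2 ≤ arm p R := by
      refine hwin R (by omega) p hp.le ?_
      rw [le_div_iff₀ (by positivity)]
      calc (1 / 2 - (p : ℝ)) * (R * arm half R) = (R : ℝ) * arm half R * x := by rw [hx]; ring
        _ ≤ c1 := h2
    -- lower bound for `n π(R)`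
    have h5 : c1 / (14 * x) ≤ n * arm half R := by
      have h6 : arm half (5 * (n + 1) + 4) ≤ arm half R := arm_antitone (by omega)
      have h7 : ((5 * (n + 1) + 4 : ℕ) : ℝ) ≤ 14 * n := by push_cast; linarith
      rw [div_le_iff₀ (by positivity)]
      have h8 := arm_nonneg (p := half) (r := 5 * (n + 1) + 4)
      calc c1 ≤ ((5 * (n + 1) + 4 : ℕ) : ℝ) * arm half (5 * (n + 1) + 4) * x := h3.le
        _ ≤ (14 * n) * arm half R * x := by gcongr
        _ = n * arm half R * (14 * x) := by ring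
    have h9 := htr n hn p hp.le
    refine le_trans (ENNReal.ofReal_le_ofReal ?_) (trunc_le_sigma p (bx (2 * n)) R)
    refine le_trans ?_ h9
    have h10 : (c1 / (14 * x)) ^ 2 ≤ (n * arm half R) ^ 2 := by gcongr
    calc c / x ^ 2 ≤ (c2 * c1 ^ 2 / 784) / x ^ 2 := by
          gcongr
          exact min_le_left _ _
      _ = c2 / 4 * (c1 / (14 * x)) ^ 2 := by
          field_simp
          ring
      _ ≤ c2 / 4 * (n * arm half R) ^ 2 := by gcongr
      _ = c2 * (n : ℝ) ^ 2 * (arm half R / 2) ^ 2 := by ring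
      _ ≤ c2 * (n : ℝ) ^ 2 * arm p R ^ 2 := by gcongr
  · push Not at h1
    refine le_trans ?_ (one_le_sigma p)
    rw [← ENNReal.ofReal_one]
    apply ENNReal.ofReal_le_ofReal
    rw [div_le_one (by positivity)]
    have h2 : c1 < 9 * x := by
      have h3 := arm_le_one (p := half) (r := 5 * 1 + 4)
      have h4 := arm_nonneg (p := half) (r := 5 * 1 + 4)
      calc c1 < ((5 * 1 + 4 : ℕ) : ℝ) * arm half (5 * 1 + 4) * x := h1
        _ ≤ ((5 * 1 + 4 : ℕ) : ℝ) * 1 * x := by gcongr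
        _ = 9 * x := by push_cast; ring
    calc c ≤ c1 ^ 2 / 81 := min_le_right _ _
      _ ≤ (9 * x) ^ 2 / 81 := by gcongr
      _ = x ^ 2 := by ring

/-- The exponent `γ` exists and equals `γ₀`, i.e. `σ(p) = (1/2 - p)^{-γ₀ + o(1)}` as `p ↑ 1/2`. -/
def HasGamma (γ₀ : ℝ) : Prop :=
  ∀ ε > (0 : ℝ), ∃ δ > (0 : ℝ), ∀ p : I, (p : ℝ) < 1 / 2 → 1 / 2 - δ < (p : ℝ) →
    ENNReal.ofReal ((1 / 2 - (p : ℝ)) ^ (-γ₀ + ε)) ≤ sigma p ∧
      sigma p ≤ ENNReal.ofReal ((1 / 2 - (p : ℝ)) ^ (-γ₀ - ε))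

theorem gamma_ge_two {γ₀ : ℝ} (h : HasGamma γ₀) : 2 ≤ γ₀ := by
  by_contra hlt
  push Not at hlt
  obtain ⟨c, hc, hlow⟩ := sigma_lower
  set ε := (2 - γ₀) / 2 with hε
  have hεp : 0 < ε := by rw [hε]; linarith
  obtain ⟨δ, hδ, hb⟩ := h ε hεp
  -- choose `p` very close to `1/2`
  obtain ⟨x, hx0, hx1, hx2, hx3⟩ : ∃ x : ℝ, 0 < x ∧ x < δ ∧ x ≤ 1 / 2 ∧ x ^ ε < c := by
    have ht : Tendsto (fun x : ℝ => x ^ ε) (𝓝[>] 0) (𝓝 0) := by
      have h1 := (Real.continuousAt_rpow_const 0 ε (Or.inr hεp.le)).tendsto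
      rw [Real.zero_rpow hεp.ne'] at h1
      exact h1.mono_left nhdsWithin_le_nhds
    have h2 := ht.eventually_lt_const hc
    have h3 : ∀ᶠ x : ℝ in 𝓝[>] 0, x < min δ (1 / 2) :=
      (eventually_lt_nhds (lt_min hδ (by norm_num))).filter_mono nhdsWithin_le_nhds
    obtain ⟨x, ⟨h4, h5⟩, h6⟩ := ((h2.and h3).and eventually_mem_nhdsWithin).exists
    exact ⟨x, h6, lt_of_lt_of_le h5 (min_le_left _ _), (h5.trans_le (min_le_right _ _)).le, h4⟩
  have hI : (1 / 2 - x) ∈ I := ⟨by linarith, by linarith⟩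
  have h1 := hlow ⟨1 / 2 - x, hI⟩ (by simp only; linarith)
  have h2 := (hb ⟨1 / 2 - x, hI⟩ (by simp only; linarith) (by simp only; linarith)).2
  simp only [sub_sub_cancel] at h1 h2
  have h3 := h1.trans h2
  rw [ENNReal.ofReal_le_ofReal_iff (by positivity)] at h3
  have h4 : x ^ (-γ₀ - ε) = x ^ ε / x ^ 2 := by
    rw [← Real.rpow_natCast x 2, ← Real.rpow_sub hx0]
    congr 1
    rw [hε]
    push_cast
    ring
  rw [h4] at h3
  have h5 : c ≤ x ^ ε := by
    have := (div_le_div_iff_of_pos_right (by positivity : (0 : ℝ) < x ^ 2)).1 h3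
    exact this
  linarith

end Pool.Agent.H85.Gamma
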