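import Pool.Agent.H89.Perc.EdgeDual
import Pool.Agent.H89.Perc.Russo
import Pool.Agent.Perc.KI

/-!
# The key inequality for the one-arm event
-/

open MeasureTheory ProbabilityTheory unitInterval

namespace Pool.Agent.H85.Gamma

open Pool.Agent.H89.Perc
open Pool.Agent.Perc (Ex ind ind_of ind_of_not ind_congr)

/-- An endpoint of `e` is joined to the origin in the box, off the edge `e`. -/
def PArm (m : ℕ) (e : Edge) : Set Config :=
  {ω | ∃ u, (u = src e ∨ u = tgt e) ∧ Conn (Function.update ω e false) (ball 0 m) 0 u}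

/-- A face next to `e` is joined, by dual paths in the box off the dual edge of `e`, to a face next
to the horizontal axis. -/
def QArm (m : ℕ) (e : Edge) : Set Config :=
  {ω | ∃ F, (F = src e ∨ F = lowFace e) ∧ ∃ G : Vert, (G.2 = 0 ∨ G.2 = -1) ∧
    Conn (dual (Function.update ω e true)) (rect (-m) (m - 1) (-m) (m - 1)) F G}

/-- The edges on which the one-arm event depends. -/
noncomputable def eB (m : ℕ) : Finset Edge := eRect (-m) m (-m) m

theorem mem_eB {m : ℕ} {e : Edge} : e ∈ eB m ↔ src e ∈ ball 0 m := by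
  unfold eB
  rw [mem_eRect]
  simp [ball]

theorem localOn_arm0 (m : ℕ) : LocalOn (eB m) (Arm 0 m) := by
  have := localOn_arm 0 m
  simpa [eB] using this

theorem localOn_PArm (m : ℕ) (e : Edge) : LocalOn (eB m) (PArm m e) := by
  rintro ω ω' h ⟨u, hu, hc⟩
  refine ⟨u, hu, Conn.congr ?_ hc⟩
  intro f hf _
  by_cases hfe : f = e
  · subst hfe; simp
  · rw [Function.update_of_ne hfe, Function.update_of_ne hfe]
    exact h f (mem_eB.2 hf)

theorem incr_PArm (m : ℕ) (e : Edge) : Incr (PArm m e) := by
  rintro ω ω' h ⟨u, hu, hc⟩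
  refine ⟨u, hu, hc.mono le_rfl ?_⟩
  intro f hf
  by_cases hfe : f = e
  · subst hfe; simp at hf
  · rw [Function.update_of_ne hfe] at hf ⊢
    exact h f hf

theorem localOn_QArm (m : ℕ) (e : Edge) : LocalOn (eB m) (QArm m e) := by
  rintro ω ω' h ⟨F, hF, G, hG, hc⟩
  refine ⟨F, hF, G, hG, Conn.congr ?_ hc⟩
  intro f hf hf'
  simp only [dual]
  by_cases hfe : crossed f = e
  · rw [hfe]; simp
  · rw [Function.update_of_ne hfe, Function.update_of_ne hfe]
    rw [h _ (mem_eB.2 ?_)]
    obtain ⟨x, y, b⟩ := f
    cases b <;> simp [src, tgt, crossed, rect, ball] at hf hf' ⊢ <;> omega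

theorem incr_QArm_compl (m : ℕ) (e : Edge) : Incr (QArm m e)ᶜ := by
  rintro ω ω' h hω ⟨F, hF, G, hG, hc⟩
  refine hω ⟨F, hF, G, hG, hc.mono le_rfl ?_⟩
  intro f hf
  simp only [dual, Bool.not_eq_true'] at hf ⊢
  by_cases hfe : crossed f = e
  · rw [hfe] at hf; simp at hf
  · rw [Function.update_of_ne hfe] at hf ⊢
    by_contra hc
    rw [Bool.not_eq_false] at hc
    rw [h _ hc] at hf
    exact absurd hf (by decide)

theorem dual_update (ω : Config) (e : Edge) (b : Bool) :
    dual (Function.update ω e b) = Function.update (dual ω) (uncross e) (!b) := by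
  funext f
  simp only [dual]
  by_cases h : f = uncross e
  · subst h; simp [crossed_uncross, Function.update_self]
  · have h' : crossed f ≠ e := by
      intro hc
      apply h
      rw [← hc, uncross_crossed]
    rw [Function.update_of_ne h', Function.update_of_ne h]
    rfl

/-- Property (PA). -/
theorem PArm_split {m : ℕ} {e f : Edge} {ω : Config}
    (h : Function.update ω f true ∈ PArm m e) (he : ω e = false) (hf : ω f = false)
    (hef : e ≠ f) : ω ∈ PArm m e ∨ ω ∈ PArm m f := by
  obtain ⟨u, hu, hc⟩ := h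
  have h1 : Function.update (Function.update ω f true) e false = Function.update ω f true := by
    funext g
    by_cases hg : g = e
    · subst hg
      rw [Function.update_self, Function.update_of_ne hef, he]
    · rw [Function.update_of_ne hg]
  have h2 : Function.update ω f false = ω := by
    funext g
    by_cases hg : g = f
    · subst hg; rw [Function.update_self, hf]
    · rw [Function.update_of_ne hg]
  have h3 : Function.update ω e false = ω := by
    funext g
    by_cases hg : g = e
    · subst hg; rw [Function.update_self, he]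
    · rw [Function.update_of_ne hg]
  rw [h1] at hc
  rcases hc.split_edge with hc | ⟨a, b, hJ, h4, -⟩
  · left
    refine ⟨u, hu, ?_⟩
    rw [h3]; rwa [h2] at hc
  · right
    refine ⟨a, ?_, h4⟩
    rcases hJ with ⟨h5, -⟩ | ⟨h5, -⟩
    · exact Or.inl h5
    · exact Or.inr h5

/-- Property (PB). -/
theorem QArm_split {m : ℕ} {e f : Edge} {ω : Config} (h : ω ∈ QArm m e) (hf : ω f = false)
    (hef : e ≠ f) :
    Function.update ω f true ∈ QArm m e ∨ Function.update ω e true ∈ QArm m f := by
  obtain ⟨F, hF, G, hG, hc⟩ := h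
  set η : Config := dual (Function.update ω e true) with hη
  have h1 : Function.update η (uncross f) true = η := by
    funext g
    by_cases hg : g = uncross f
    · subst hg
      rw [Function.update_self, hη]
      simp only [dual, crossed_uncross]
      rw [Function.update_of_ne (fun h => hef h.symm), hf]
      rfl
    · rw [Function.update_of_ne hg]
  have h2 : Function.update η (uncross f) false
      = dual (Function.update (Function.update ω e true) f true) := by
    rw [dual_update (Function.update ω e true) f true, hη]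
    rfl
  have hc' : Conn (Function.update η (uncross f) true) (rect (-m) (m - 1) (-m) (m - 1)) G F := by
    rw [h1]; exact hc.symm
  rcases hc'.split_edge with hc' | ⟨a, b, hJ, h4, -⟩
  · left
    refine ⟨F, hF, G, hG, ?_⟩
    rw [h2] at hc'
    rw [Function.update_comm (fun h => hef h.symm)]
    exact hc'.symm
  · right
    refine ⟨a, ?_, G, hG, ?_⟩
    · rcases hJ with ⟨h5, -⟩ | ⟨h5, -⟩
      · right; rw [h5, src_uncross]
      · left; rw [h5, tgt_uncross]
    · rw [h2] at h4
      exact h4.symm

/-- Pivotality for the one-arm event. -/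
theorem arm_pivotal {m : ℕ} {e : Edge} {ω : Config} (h : ω ∉ Arm 0 m)
    (h' : Function.update ω e true ∈ Arm 0 m) (he : ω e = false) :
    ω ∈ PArm m e ∧ ω ∈ QArm m e := by
  have h3 : Function.update ω e false = ω := by
    funext g
    by_cases hg : g = e
    · subst hg; rw [Function.update_self, he]
    · rw [Function.update_of_ne hg]
  have h2 : Function.update ω e false ∉ Arm 0 m := by rw [h3]; exact h
  constructor
  · obtain ⟨u, v, hJ, hc, -⟩ := pivot_primal h' h2
    refine ⟨u, ?_, hc⟩
    rcases hJ with ⟨h5, -⟩ | ⟨h5, -⟩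
    · exact Or.inl h5
    · exact Or.inr h5
  · exact pivot_dual h' h2

/-- The key inequality for the one-arm event. -/
theorem arm_key (p : I) (m : ℕ) :
    (p : ℝ) * (1 - p) * (∑ e ∈ eB m, pivot p (Arm 0 m) e) ^ 2
      ≤ arm p m * ∑ e ∈ eB m, Pr p (PArm m e) * Pr p (QArm m e) := by
  have hupd : ∀ (S : Finset Edge) (e : Edge), ofS (insert e S) = Function.update (ofS S) e true :=
    fun S e => (update_ofS_true S e).symm
  have hoff : ∀ (S : Finset Edge) (e : Edge), e ∉ S → ofS S e = false := by
    intro S e h; simp [ofS, h]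
  have key := Pool.Agent.Perc.key_inequality (p := (p : ℝ)) (F := eB m) (F' := eB m) p.2.1 p.2.2
    (Finset.Subset.refl _) (fun e S => ofS S ∈ PArm m e) (fun e S => ofS S ∈ QArm m e)
    (fun e _ S T hST _ h => incr_PArm m e _ _ (ofS_mono hST) h)
    (fun e _ S T hST _ h => by
      by_contra hc
      exact incr_QArm_compl m e _ _ (ofS_mono hST) hc h)
    (fun e _ S _ _ h => by
      rw [hupd] at h
      obtain ⟨u, hu, hc⟩ := h
      refine ⟨u, hu, ?_⟩
      rwa [Function.update_idem] at hc)
    (fun e _ S _ _ h => by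
      rw [hupd]
      obtain ⟨F, hF, G, hG, hc⟩ := h
      refine ⟨F, hF, G, hG, ?_⟩
      rwa [Function.update_idem])
    (fun e _ e' _ hne S _ h1 h2 h3 _ => by
      rw [hupd] at h3
      exact PArm_split h3 (hoff S e h1) (hoff S e' h2) hne)
    (fun e _ e' _ hne S _ _ h2 h3 _ => by
      rw [hupd, hupd]
      exact QArm_split h3 (hoff S e' h2) hne)
    (ind (fun S => ofS S ∈ Arm 0 m))
    (fun e _ S _ h1 h2 => by
      refine ind_congr ⟨fun h => ?_, fun h => incr_arm 0 m _ _ (ofS_mono (Finset.subset_insert e S)) h⟩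
      by_contra hc
      rw [hupd] at h
      exact h2 (arm_pivotal hc h (hoff S e h1)))
  have e1 : ∑ e ∈ eB m, Ex (p : ℝ) (eB m)
      (Pool.Agent.Perc.DD e (ind (fun S => ofS S ∈ Arm 0 m)))
      = ∑ e ∈ eB m, pivot p (Arm 0 m) e :=
    Finset.sum_congr rfl fun e he => (pivot_eq_Ex (localOn_arm0 m) he).symm
  have e2 : Ex (p : ℝ) (eB m) (fun S => ind (fun S => ofS S ∈ Arm 0 m) S ^ 2) = arm p m := by
    rw [arm, Pr_eq_Ex (localOn_arm0 m)]
    exact Pool.Agent.Perc.Ex_congr fun S _ => Pool.Agent.Perc.ind_sq _ _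
  rw [e1, e2] at key
  refine key.trans (mul_le_mul_of_nonneg_left (Finset.sum_le_sum fun e _ => ?_) arm_nonneg)
  have h3 := fkg_mixed (p := p) (localOn_PArm m e) (localOn_QArm m e) (incr_PArm m e)
    (incr_QArm_compl m e)
  rw [Pr_eq_Ex ((localOn_PArm m e).inter (localOn_QArm m e))] at h3
  exact h3

end Pool.Agent.H85.Gamma
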