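import Pool.Agent.H85.Gamma.Window
import Pool.Agent.Perc.BK
import Pool.Agent.H89.Perc.Decay

/-!
# Lower bound for the susceptibility by a second moment argument
-/

open MeasureTheory ProbabilityTheory unitInterval Filter Topology
open scoped ENNReal

namespace Pool.Agent.H85.Gamma

open Pool.Agent.H89.Perc
open Pool.Agent.Perc (Ex ind ind_of ind_of_not ind_congr ind_nonneg ind_le_one)

/-- `x` is joined to the boundary of the box of radius `r` inside that box. -/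
def ToSph (r : ℕ) (x : Vert) : Set Config := {ω | ∃ u ∈ sphere 0 r, Conn ω (ball 0 r) x u}

theorem localOn_ToSph (r : ℕ) (x : Vert) : LocalOn (eB r) (ToSph r x) := by
  rintro ω ω' h ⟨u, hu, hc⟩
  exact ⟨u, hu, Conn.congr (fun e he _ => h e (mem_eB.2 he)) hc⟩

theorem incr_ToSph (r : ℕ) (x : Vert) : Incr (ToSph r x) := by
  rintro ω ω' h ⟨u, hu, hc⟩
  exact ⟨u, hu, hc.mono le_rfl h⟩

theorem localOn_connB (r : ℕ) (x y : Vert) : LocalOn (eB r) {ω | Conn ω (ball 0 r) x y} := by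
  intro ω ω' h hc
  exact Conn.congr (fun e he _ => h e (mem_eB.2 he)) hc

/-- The open edges inside the cluster of `x`. -/
noncomputable def clE (r : ℕ) (S : Finset Edge) (x : Vert) : Finset Edge := by
  classical exact S.filter (fun e => Conn (ofS S) (ball 0 r) x (src e) ∧
    Conn (ofS S) (ball 0 r) x (tgt e))

theorem mem_clE {r : ℕ} {S : Finset Edge} {x : Vert} {e : Edge} :
    e ∈ clE r S x ↔ e ∈ S ∧ Conn (ofS S) (ball 0 r) x (src e) ∧
      Conn (ofS S) (ball 0 r) x (tgt e) := by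
  classical
  unfold clE
  rw [Finset.mem_filter]

theorem conn_clE {r : ℕ} {S : Finset Edge} {x u : Vert} (h : Conn (ofS S) (ball 0 r) x u) :
    Conn (ofS (clE r S x)) (ball 0 r) x u := by
  refine h.induction_right (P := fun z => Conn (ofS (clE r S x)) (ball 0 r) x z)
    (Conn.refl h.mem_left) ?_
  rintro a b hxa hab ih
  have hxb : Conn (ofS S) (ball 0 r) x b := hxa.tail hab
  obtain ⟨ha, hb, e, hJ, ho⟩ := hab
  refine ih.tail ⟨ha, hb, e, hJ, ?_⟩
  rw [ofS_eq_true] at ho ⊢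
  rw [mem_clE]
  rcases hJ with ⟨h1, h2⟩ | ⟨h1, h2⟩
  · subst h1 h2; exact ⟨ho, hxa, hxb⟩
  · subst h1 h2; exact ⟨ho, hxb, hxa⟩

/-- Two vertices joined to the boundary by different clusters: BK inequality. -/
theorem bk_pair (p : I) (r : ℕ) (x y : Vert) :
    Pr p ((ToSph r x ∩ ToSph r y) ∩ {ω | Conn ω (ball 0 r) x y}ᶜ)
      ≤ Pr p (ToSph r x) * Pr p (ToSph r y) := by
  have hup : ∀ z, Pool.Agent.Perc.UpOn (eB r) (fun S => ofS S ∈ ToSph r z) :=
    fun z S T hST _ h => incr_ToSph r z _ _ (ofS_mono hST) h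
  have key := Pool.Agent.Perc.bk (p := (p : ℝ)) (F := eB r) p.2.1 p.2.2 (hup x) (hup y)
  rw [Pr_eq_Ex (((localOn_ToSph r x).inter (localOn_ToSph r y)).inter (localOn_connB r x y).compl),
    Pr_eq_Ex (localOn_ToSph r x), Pr_eq_Ex (localOn_ToSph r y)]
  refine le_trans ?_ key
  unfold Pool.Agent.Perc.Pr
  refine Pool.Agent.Perc.Ex_mono p.2.1 p.2.2 fun S _ => Pool.Agent.Perc.ind_le_ind ?_
  rintro ⟨⟨⟨u, hu, h1⟩, ⟨v, hv, h2⟩⟩, h3⟩
  refine ⟨clE r S x, clE r S y, ?_, ?_, ?_, ⟨u, hu, conn_clE h1⟩, ⟨v, hv, conn_clE h2⟩⟩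
  · intro e he; exact (mem_clE.1 he).1
  · intro e he; exact (mem_clE.1 he).1
  · rw [Finset.disjoint_left]
    intro e he he'
    exact h3 ((mem_clE.1 he).2.1.trans (mem_clE.1 he').2.1.symm)

/-- The box of radius `n` as a finite set. -/
noncomputable def bx (n : ℕ) : Finset Vert := Finset.Icc (-(n : ℤ)) n ×ˢ Finset.Icc (-(n : ℤ)) n

theorem mem_bx {n : ℕ} {x : Vert} : x ∈ bx n ↔ x ∈ ball 0 n := by
  unfold bx
  rw [Finset.mem_product, Finset.mem_Icc, Finset.mem_Icc, mem_ball]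
  simp only [Prod.fst_zero, Prod.snd_zero]
  omega

theorem card_bx (n : ℕ) : ((bx n).card : ℝ) = (2 * n + 1) ^ 2 := by
  unfold bx
  rw [Finset.card_product, Int.card_Icc]
  have : ((n : ℤ) + 1 - -(n : ℤ)).toNat = 2 * n + 1 := by omega
  rw [this]
  push_cast
  ring

/-- Second moment lower bound for the number of connected pairs. -/
theorem pairs_lower (p : I) (n r : ℕ) :
    (1 - Pr p (ArmBox 0 n r)) * (∑ x ∈ bx n, Pr p (ToSph r x)) ^ 2
      ≤ ∑ x ∈ bx n, ∑ y ∈ bx n, Pr p {ω | Conn ω (ball 0 r) x y} := by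
  set A : Vert → Finset Edge → ℝ := fun x => ind (fun S => ofS S ∈ ToSph r x) with hA
  set M := ∑ x ∈ bx n, Pr p (ToSph r x) with hM
  set X : Finset Edge → ℝ := fun S => ∑ x ∈ bx n, A x S with hX
  have hPrA : ∀ x, Pr p (ToSph r x) = Ex (p : ℝ) (eB r) (A x) := fun x =>
    Pr_eq_Ex (localOn_ToSph r x) p
  have hEX : Ex (p : ℝ) (eB r) X = M := by
    rw [hX, Pool.Agent.Perc.Ex_sum, hM]
    exact Finset.sum_congr rfl fun x _ => (hPrA x).symm
  have hEX2 : Ex (p : ℝ) (eB r) (fun S => X S ^ 2)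
      = ∑ x ∈ bx n, ∑ y ∈ bx n, Pr p (ToSph r x ∩ ToSph r y) := by
    have : Ex (p : ℝ) (eB r) (fun S => X S ^ 2)
        = Ex (p : ℝ) (eB r) (fun S => ∑ x ∈ bx n, ∑ y ∈ bx n, A x S * A y S) := by
      refine Pool.Agent.Perc.Ex_congr fun S _ => ?_
      simp only [hX]
      rw [pow_two, Finset.sum_mul_sum]
    rw [this, Pool.Agent.Perc.Ex_sum]
    refine Finset.sum_congr rfl fun x _ => ?_
    rw [Pool.Agent.Perc.Ex_sum]
    refine Finset.sum_congr rfl fun y _ => ?_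
    rw [Pr_eq_Ex ((localOn_ToSph r x).inter (localOn_ToSph r y))]
    refine Pool.Agent.Perc.Ex_congr fun S _ => ?_
    simp only [hA]
    rw [Pool.Agent.Perc.ind_mul]
    rfl
  -- variance bound
  have hvar : (1 - Pr p (ArmBox 0 n r)) * M ^ 2 ≤ Ex (p : ℝ) (eB r) (fun S => X S ^ 2) - M ^ 2 := by
    have hl : LocalOn (eB r) (ArmBox 0 n r) := by
      have := localOn_armBox 0 n r
      simpa [eB] using this
    have h1 : Pr p (ArmBox 0 n r)ᶜ = 1 - Pr p (ArmBox 0 n r) := Pr_compl hl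
    rw [← h1, Pr_eq_Ex hl.compl]
    have h2 : Ex (p : ℝ) (eB r) (fun S => (X S - M) ^ 2)
        = Ex (p : ℝ) (eB r) (fun S => X S ^ 2) - M ^ 2 := by
      have e1 : Ex (p : ℝ) (eB r) (fun S => (X S - M) ^ 2)
          = Ex (p : ℝ) (eB r) (fun S => (X S ^ 2 - (2 * M) * X S) + M ^ 2) :=
        Pool.Agent.Perc.Ex_congr fun S _ => by ring
      rw [e1, Pool.Agent.Perc.Ex_add, Pool.Agent.Perc.Ex_sub, Pool.Agent.Perc.Ex_const_mul, hEX,
        Pool.Agent.Perc.Ex_const]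
      ring
    rw [← h2, ← Pool.Agent.Perc.Ex_mul_const]
    refine Pool.Agent.Perc.Ex_mono p.2.1 p.2.2 fun S _ => ?_
    by_cases hS : ofS S ∈ (ArmBox 0 n r)ᶜ
    · have hX0 : X S = 0 := by
        simp only [hX]
        refine Finset.sum_eq_zero fun x hx => ?_
        refine ind_of_not (A := fun S => ofS S ∈ ToSph r x) ?_
        rintro ⟨u, hu, hc⟩
        exact hS ⟨x, mem_bx.1 hx, u, hu, hc⟩
      rw [hX0, ind_of (A := fun S => ofS S ∈ (ArmBox 0 n r)ᶜ) hS]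
      apply le_of_eq
      ring
    · rw [ind_of_not (A := fun S => ofS S ∈ (ArmBox 0 n r)ᶜ) hS, zero_mul]
      positivity
  refine hvar.trans ?_
  rw [hEX2, hM, pow_two, Finset.sum_mul_sum, ← Finset.sum_sub_distrib]
  refine Finset.sum_le_sum fun x _ => ?_
  rw [← Finset.sum_sub_distrib]
  refine Finset.sum_le_sum fun y _ => ?_
  have h1 := bk_pair p r x y
  have h2 : Pr p (ToSph r x ∩ ToSph r y) ≤ Pr p {ω | Conn ω (ball 0 r) x y}
      + Pr p ((ToSph r x ∩ ToSph r y) ∩ {ω | Conn ω (ball 0 r) x y}ᶜ) := by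
    refine (Pr_mono ?_).trans Pr_union_le
    intro ω hω
    by_cases h : ω ∈ {ω | Conn ω (ball 0 r) x y}
    · exact Or.inl h
    · exact Or.inr ⟨hω, h⟩
  linarith

theorem Pr_connB_le (p : I) {n r : ℕ} {x : Vert} (hx : x ∈ ball 0 n) (y : Vert) :
    Pr p {ω | Conn ω (ball 0 r) x y}
      ≤ Pr p {ω | Conn ω (ball 0 (r + n)) 0 (y.1 - x.1, y.2 - x.2)} := by
  rw [← Pr_comp (localOn_connB (r + n) 0 (y.1 - x.1, y.2 - x.2)) (shiftE_injective x).injOn]
  refine Pr_mono ?_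
  intro ω hω
  show Conn (fun e => ω (shiftE x e)) (ball 0 (r + n)) 0 (y.1 - x.1, y.2 - x.2)
  rw [conn_shift]
  have hω' : Conn ω (ball 0 r) x y := hω
  have e1 : ((0 : Vert).1 + x.1, (0 : Vert).2 + x.2) = x := by simp
  have e2 : ((y.1 - x.1, y.2 - x.2) : Vert).1 + x.1 = y.1 := by simp
  have e3 : ((y.1 - x.1, y.2 - x.2) : Vert).2 + x.2 = y.2 := by simp
  rw [e1, e2, e3]
  refine hω'.mono_set ?_
  intro w hw
  simp only [mem_ball, Prod.fst_zero, Prod.snd_zero, Set.mem_ofPred_eq] at hw hx ⊢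
  push_cast
  omega

theorem arm_le_ToSph (p : I) {n r : ℕ} {x : Vert} (hx : x ∈ ball 0 n) (hnr : n ≤ r) :
    arm p (r + n) ≤ Pr p (ToSph r x) := by
  rw [← Pr_arm x (r + n)]
  refine Pr_mono ?_
  rintro ω ⟨u, hu, hc⟩
  have hxr : x ∈ ball 0 r := by
    simp only [mem_ball, Prod.fst_zero, Prod.snd_zero] at hx ⊢
    omega
  have hu' : u ∉ ball 0 r ∨ u ∈ sphere 0 r := by
    by_cases h : u ∈ ball 0 r
    · right
      refine ⟨h, ?_⟩
      have h2 := hu.2
      simp only [mem_ball, Prod.fst_zero, Prod.snd_zero] at hx h ⊢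
      push_cast at h2
      omega
    · exact Or.inl h
  obtain ⟨v, hv, hc'⟩ := hc.to_sphere hxr hu'
  exact ⟨v, hv, hc'.mono_set Set.inter_subset_right⟩

/-- Lower bound for a truncated susceptibility. -/
theorem trunc_lower : ∃ c : ℝ, 0 < c ∧ ∀ n : ℕ, 1 ≤ n → ∀ q : I, (q : ℝ) ≤ 1 / 2 →
    c * (n : ℝ) ^ 2 * arm q (5 * n + 4) ^ 2
      ≤ ∑ z ∈ bx (2 * n), Pr q {ω | Conn ω (ball 0 (5 * n + 4)) 0 z} := by
  obtain ⟨c, hc, hbox⟩ := armBox_le
  refine ⟨4 * c, by positivity, ?_⟩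
  intro n hn q hq
  set r := 4 * (n + 1) with hr
  have hrn : r + n = 5 * n + 4 := by omega
  rw [← hrn]
  set T := ∑ z ∈ bx (2 * n), Pr q {ω | Conn ω (ball 0 (r + n)) 0 z} with hT
  have hl : LocalOn (eRect ((0 : Vert).1 - r) ((0 : Vert).1 + r) ((0 : Vert).2 - r)
      ((0 : Vert).2 + r)) (ArmBox 0 n r) := localOn_armBox 0 n r
  have h1 : Pr q (ArmBox 0 n r) ≤ 1 - c := by
    refine (Pr_mono_param hl (incr_armBox 0 n r) ?_).trans (hbox n r hn le_rfl)
    show ((q : I) : ℝ) ≤ ((half : I) : ℝ)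
    rw [half_coe]
    exact hq
  have h2 := pairs_lower q n r
  have h3 : ∑ x ∈ bx n, ∑ y ∈ bx n, Pr q {ω | Conn ω (ball 0 r) x y} ≤ (bx n).card * T := by
    rw [← nsmul_eq_mul]
    refine Finset.sum_le_card_nsmul _ _ _ fun x hx => ?_
    have hx' := mem_bx.1 hx
    calc ∑ y ∈ bx n, Pr q {ω | Conn ω (ball 0 r) x y}
        ≤ ∑ y ∈ bx n, Pr q {ω | Conn ω (ball 0 (r + n)) 0 (y.1 - x.1, y.2 - x.2)} :=
          Finset.sum_le_sum fun y _ => Pr_connB_le q hx' y
      _ = ∑ z ∈ (bx n).image (fun y : Vert => ((y.1 - x.1, y.2 - x.2) : Vert)),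
            Pr q {ω | Conn ω (ball 0 (r + n)) 0 z} := by
          rw [Finset.sum_image]
          intro a _ b _ hab
          simp only [Prod.mk.injEq, sub_left_inj] at hab
          exact Prod.ext hab.1 hab.2
      _ ≤ T := by
          refine Finset.sum_le_sum_of_subset_of_nonneg ?_ fun _ _ _ => Pr_nonneg
          intro z hz
          obtain ⟨y, hy, rfl⟩ := Finset.mem_image.1 hz
          rw [mem_bx] at hy ⊢
          simp only [mem_ball, Prod.fst_zero, Prod.snd_zero] at hy hx' ⊢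
          push_cast
          omega
  have h4 : ((bx n).card : ℝ) * arm q (r + n) ≤ ∑ x ∈ bx n, Pr q (ToSph r x) := by
    rw [← nsmul_eq_mul]
    exact Finset.card_nsmul_le_sum _ _ _ fun x hx => arm_le_ToSph q (mem_bx.1 hx) (by omega)
  have ha := arm_nonneg (p := q) (r := r + n)
  have hcard : (4 : ℝ) * n ^ 2 ≤ (bx n).card := by
    rw [card_bx]
    have : (0 : ℝ) ≤ n := by positivity
    nlinarith
  have hcp : (0 : ℝ) < (bx n).card := by
    rw [card_bx]; positivity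
  have h5 : c * (((bx n).card : ℝ) * arm q (r + n)) ^ 2 ≤ (bx n).card * T := by
    calc c * (((bx n).card : ℝ) * arm q (r + n)) ^ 2
        ≤ (1 - Pr q (ArmBox 0 n r)) * (∑ x ∈ bx n, Pr q (ToSph r x)) ^ 2 := by
          refine mul_le_mul (by linarith) (by gcongr) (by positivity) (by linarith)
      _ ≤ _ := h2.trans h3
  have h6 : c * ((bx n).card : ℝ) * arm q (r + n) ^ 2 ≤ T := by
    have : ((bx n).card : ℝ) * (c * ((bx n).card : ℝ) * arm q (r + n) ^ 2) ≤ (bx n).card * T := by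
      calc _ = c * (((bx n).card : ℝ) * arm q (r + n)) ^ 2 := by ring
        _ ≤ _ := h5
    exact le_of_mul_le_mul_left this hcp
  calc 4 * c * (n : ℝ) ^ 2 * arm q (r + n) ^ 2 = c * (4 * n ^ 2) * arm q (r + n) ^ 2 := by ring
    _ ≤ c * ((bx n).card : ℝ) * arm q (r + n) ^ 2 := by gcongr
    _ ≤ T := h6

end Pool.Agent.H85.Gamma
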