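import Pool.Agent.H85.Gamma.Bounds

/-!
# The sum of products of arm probabilities over a box
-/

open MeasureTheory ProbabilityTheory unitInterval

namespace Pool.Agent.H85.Gamma

open Pool.Agent.H89.Perc

/-- The weight `(k+1)^{-3/4}`. -/
noncomputable def wt (k : ℕ) : ℝ := ((k : ℝ) + 1) ^ (-(3 / 4) : ℝ)

theorem wt_pos (k : ℕ) : 0 < wt k := by unfold wt; positivity

theorem wt_step (t s : ℝ) (ht : 0 < t) (hs : 0 ≤ s) (h : t ^ 4 - s ^ 4 = 1) :
    (t ^ 3)⁻¹ ≤ 4 * (t - s) := by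
  have hts : s ≤ t := by
    by_contra hc
    push Not at hc
    have : t ^ 4 < s ^ 4 := by gcongr
    linarith
  rw [inv_le_iff_one_le_mul₀ (by positivity), ← h]
  have h1 : 0 ≤ t - s := by linarith
  have h2 : t ^ 4 - s ^ 4 = (t - s) * (t ^ 3 + t ^ 2 * s + t * s ^ 2 + s ^ 3) := by ring
  rw [h2]
  have h3 : t ^ 2 * s ≤ t ^ 3 := by
    calc t ^ 2 * s ≤ t ^ 2 * t := by gcongr
      _ = t ^ 3 := by ring
  have h4 : t * s ^ 2 ≤ t ^ 3 := by
    calc t * s ^ 2 ≤ t * t ^ 2 := by gcongr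
      _ = t ^ 3 := by ring
  have h5 : s ^ 3 ≤ t ^ 3 := by gcongr
  calc (t - s) * (t ^ 3 + t ^ 2 * s + t * s ^ 2 + s ^ 3) ≤ (t - s) * (4 * t ^ 3) := by
        gcongr; linarith
    _ = 4 * (t - s) * t ^ 3 := by ring

theorem rpow_four (x : ℝ) (hx : 0 ≤ x) : (x ^ (1 / 4 : ℝ)) ^ 4 = x := by
  rw [← Real.rpow_natCast, ← Real.rpow_mul hx]
  norm_num

theorem sum_wt (m : ℕ) : ∑ k ∈ Finset.range (m + 1), wt k ≤ 4 * ((m : ℝ) + 1) ^ (1 / 4 : ℝ) := by
  induction m with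
  | zero =>
    simp [wt]
  | succ m ih =>
    rw [Finset.sum_range_succ]
    set t : ℝ := (((m + 1 : ℕ) : ℝ) + 1) ^ (1 / 4 : ℝ) with ht
    set s : ℝ := ((m : ℝ) + 1) ^ (1 / 4 : ℝ) with hs
    have htp : 0 < t := by positivity
    have hsp : 0 ≤ s := by positivity
    have h4 : t ^ 4 - s ^ 4 = 1 := by
      rw [ht, hs, rpow_four _ (by positivity), rpow_four _ (by positivity)]
      push_cast
      ring
    have h5 := wt_step t s htp hsp h4
    have h6 : wt (m + 1) = (t ^ 3)⁻¹ := by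
      unfold wt
      rw [Real.rpow_neg (by positivity), ht, ← Real.rpow_natCast, ← Real.rpow_mul (by positivity)]
      norm_num
    rw [h6]
    linarith

theorem sum_wt_int (m : ℕ) :
    ∑ x ∈ Finset.Icc (-(m : ℤ)) m, wt x.natAbs ≤ 2 * ∑ k ∈ Finset.range (m + 1), wt k := by
  have hsub : Finset.Icc (-(m : ℤ)) m ⊆ (Finset.range (m + 1)).image (fun k : ℕ => (k : ℤ)) ∪
      (Finset.range (m + 1)).image (fun k : ℕ => -(k : ℤ)) := by
    intro x hx
    rw [Finset.mem_Icc] at hx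
    rw [Finset.mem_union, Finset.mem_image, Finset.mem_image]
    by_cases h : 0 ≤ x
    · left; exact ⟨x.natAbs, by rw [Finset.mem_range]; omega, by omega⟩
    · right; exact ⟨x.natAbs, by rw [Finset.mem_range]; omega, by omega⟩
  calc ∑ x ∈ Finset.Icc (-(m : ℤ)) m, wt x.natAbs
      ≤ ∑ x ∈ (Finset.range (m + 1)).image (fun k : ℕ => (k : ℤ)) ∪
        (Finset.range (m + 1)).image (fun k : ℕ => -(k : ℤ)), wt x.natAbs :=
        Finset.sum_le_sum_of_subset_of_nonneg hsub fun _ _ _ => (wt_pos _).le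
    _ ≤ ∑ x ∈ (Finset.range (m + 1)).image (fun k : ℕ => (k : ℤ)), wt x.natAbs +
        ∑ x ∈ (Finset.range (m + 1)).image (fun k : ℕ => -(k : ℤ)), wt x.natAbs := by
        have := Finset.sum_union_inter (s₁ := (Finset.range (m + 1)).image (fun k : ℕ => (k : ℤ)))
          (s₂ := (Finset.range (m + 1)).image (fun k : ℕ => -(k : ℤ)))
          (f := fun x : ℤ => wt x.natAbs)
        have h2 : 0 ≤ ∑ x ∈ (Finset.range (m + 1)).image (fun k : ℕ => (k : ℤ)) ∩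
          (Finset.range (m + 1)).image (fun k : ℕ => -(k : ℤ)), wt x.natAbs :=
          Finset.sum_nonneg fun _ _ => (wt_pos _).le
        linarith
    _ = 2 * ∑ k ∈ Finset.range (m + 1), wt k := by
        rw [Finset.sum_image (by intro a _ b _ h; simpa using h),
          Finset.sum_image (by intro a _ b _ h; simpa using h)]
        simp only [Int.natAbs_natCast, Int.natAbs_neg]
        ring

/-- Pointwise bound. -/
theorem term_bound {C : ℝ} (hC : 1 ≤ C) (hreg : ∀ k R : ℕ, 1 ≤ R → k ≤ R →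
    arm half k ≤ C * Real.sqrt (R / (k + 1)) * arm half R) {m : ℕ} (hm : 1 ≤ m) {X Y : ℕ}
    (hX : X ≤ m) (hY : Y ≤ m) :
    arm half (max X Y / 2 - 1) ^ 2 * arm half (Y - 1)
      ≤ 8 * C ^ 3 * (m * Real.sqrt m) * arm half m ^ 3 * (wt X * wt Y) := by
  set d := max X Y with hd
  have hmp : (0 : ℝ) < m := by exact_mod_cast hm
  have ha := arm_nonneg (p := half) (r := m)
  have h1 := hreg (d / 2 - 1) m hm (by omega)
  have h2 := hreg (Y - 1) m hm (by omega)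
  have hd1 : ((d : ℝ) + 1) / 4 ≤ ((d / 2 - 1 : ℕ) : ℝ) + 1 := by
    have : d + 1 ≤ 4 * ((d / 2 - 1) + 1) := by omega
    have h' : ((d : ℝ) + 1) ≤ 4 * (((d / 2 - 1 : ℕ) : ℝ) + 1) := by exact_mod_cast this
    linarith
  have hY1 : ((Y : ℝ) + 1) / 2 ≤ ((Y - 1 : ℕ) : ℝ) + 1 := by
    have : Y + 1 ≤ 2 * ((Y - 1) + 1) := by omega
    have h' : ((Y : ℝ) + 1) ≤ 2 * (((Y - 1 : ℕ) : ℝ) + 1) := by exact_mod_cast this
    linarith
  have e1 : arm half (d / 2 - 1) ^ 2 ≤ C ^ 2 * (4 * m / (d + 1)) * arm half m ^ 2 := by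
    have h3 : arm half (d / 2 - 1) ≤ C * Real.sqrt (4 * m / (d + 1)) * arm half m := by
      have h0 : (m : ℝ) / (((d / 2 - 1 : ℕ) : ℝ) + 1) ≤ 4 * m / (d + 1) := by
        rw [div_le_div_iff₀ (by positivity) (by positivity)]
        nlinarith
      exact h1.trans (mul_le_mul_of_nonneg_right (mul_le_mul_of_nonneg_left
        (Real.sqrt_le_sqrt h0) (by linarith)) ha)
    calc arm half (d / 2 - 1) ^ 2 ≤ (C * Real.sqrt (4 * m / (d + 1)) * arm half m) ^ 2 := by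
          gcongr
          exact arm_nonneg
      _ = C ^ 2 * Real.sqrt (4 * m / (d + 1)) ^ 2 * arm half m ^ 2 := by ring
      _ = _ := by rw [Real.sq_sqrt (by positivity)]
  have e2 : arm half (Y - 1) ≤ C * (2 * Real.sqrt m * ((Y : ℝ) + 1) ^ (-(1 / 2) : ℝ))
      * arm half m := by
    refine h2.trans ?_
    gcongr
    have : Real.sqrt ((m : ℝ) / (((Y - 1 : ℕ) : ℝ) + 1)) ≤ Real.sqrt (4 * (m / (Y + 1))) := by
      apply Real.sqrt_le_sqrt
      rw [← mul_div_assoc, div_le_div_iff₀ (by positivity) (by positivity)]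
      nlinarith
    refine this.trans (le_of_eq ?_)
    rw [Real.sqrt_mul (by norm_num), show (4 : ℝ) = 2 ^ 2 by norm_num,
      Real.sqrt_sq (by norm_num), Real.sqrt_div (by positivity), Real.rpow_neg (by positivity),
      ← Real.sqrt_eq_rpow]
    ring
  have e3 : ((d : ℝ) + 1)⁻¹ ≤ wt X * ((Y : ℝ) + 1) ^ (-(1 / 4) : ℝ) := by
    have hXd : ((X : ℝ) + 1) ≤ d + 1 := by
      have : X ≤ d := le_max_left _ _
      exact_mod_cast Nat.succ_le_succ this
    have hYd : ((Y : ℝ) + 1) ≤ d + 1 := by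
      have : Y ≤ d := le_max_right _ _
      exact_mod_cast Nat.succ_le_succ this
    unfold wt
    have hsplit : ((d : ℝ) + 1)⁻¹
        = ((d : ℝ) + 1) ^ (-(3 / 4) : ℝ) * ((d : ℝ) + 1) ^ (-(1 / 4) : ℝ) := by
      rw [← Real.rpow_add (by positivity), ← Real.rpow_neg_one]
      norm_num
    rw [hsplit]
    have g1 : ((d : ℝ) + 1) ^ (-(3 / 4) : ℝ) ≤ ((X : ℝ) + 1) ^ (-(3 / 4) : ℝ) :=
      Real.rpow_le_rpow_of_nonpos (by positivity) hXd (by norm_num)
    have g2 : ((d : ℝ) + 1) ^ (-(1 / 4) : ℝ) ≤ ((Y : ℝ) + 1) ^ (-(1 / 4) : ℝ) :=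
      Real.rpow_le_rpow_of_nonpos (by positivity) hYd (by norm_num)
    exact mul_le_mul g1 g2 (by positivity) (by positivity)
  have e4 : ((Y : ℝ) + 1) ^ (-(1 / 4) : ℝ) * ((Y : ℝ) + 1) ^ (-(1 / 2) : ℝ) = wt Y := by
    unfold wt
    rw [← Real.rpow_add (by positivity)]
    norm_num
  calc arm half (d / 2 - 1) ^ 2 * arm half (Y - 1)
      ≤ (C ^ 2 * (4 * m / (d + 1)) * arm half m ^ 2)
        * (C * (2 * Real.sqrt m * ((Y : ℝ) + 1) ^ (-(1 / 2) : ℝ)) * arm half m) :=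
        mul_le_mul e1 e2 arm_nonneg (by positivity)
    _ = (8 * C ^ 3 * (m * Real.sqrt m) * arm half m ^ 3)
        * (((d : ℝ) + 1)⁻¹ * ((Y : ℝ) + 1) ^ (-(1 / 2) : ℝ)) := by
        field_simp
        ring
    _ ≤ (8 * C ^ 3 * (m * Real.sqrt m) * arm half m ^ 3)
        * ((wt X * ((Y : ℝ) + 1) ^ (-(1 / 4) : ℝ)) * ((Y : ℝ) + 1) ^ (-(1 / 2) : ℝ)) := by
        gcongr
    _ = _ := by rw [mul_assoc (wt X), e4]

/-- The sum over the edges of a box. -/
theorem arm_sum : ∃ C : ℝ, 0 < C ∧ ∀ m : ℕ, 1 ≤ m →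
    ∑ e ∈ eB m, (arm half (nrm (src e) / 2 - 1) ^ 2 * arm half ((src e).2.natAbs - 1))
      ≤ C * (m : ℝ) ^ 2 * arm half m ^ 3 := by
  obtain ⟨C, hC, hreg⟩ := arm_reg
  refine ⟨2048 * C ^ 3, by positivity, ?_⟩
  intro m hm
  have hmp : (1 : ℝ) ≤ m := by exact_mod_cast hm
  have ha := arm_nonneg (p := half) (r := m)
  set K := 8 * C ^ 3 * (m * Real.sqrt m) * arm half m ^ 3 with hK
  have hK0 : 0 ≤ K := by positivity
  set W := ∑ x ∈ Finset.Icc (-(m : ℤ)) m, wt x.natAbs with hW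
  have hWle : W ≤ 8 * ((m : ℝ) + 1) ^ (1 / 4 : ℝ) := by
    have h1 := sum_wt_int m
    have h2 := sum_wt m
    linarith
  have hW0 : 0 ≤ W := Finset.sum_nonneg fun _ _ => (wt_pos _).le
  have hterm : ∀ x ∈ Finset.Icc (-(m : ℤ)) m, ∀ y ∈ Finset.Icc (-(m : ℤ)) m,
      arm half (nrm (x, y) / 2 - 1) ^ 2 * arm half (y.natAbs - 1)
        ≤ K * (wt x.natAbs * wt y.natAbs) := by
    intro x hx y hy
    rw [Finset.mem_Icc] at hx hy
    exact term_bound hC hreg hm (by omega) (by omega)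
  have hsum : ∑ e ∈ eB m, (arm half (nrm (src e) / 2 - 1) ^ 2 * arm half ((src e).2.natAbs - 1))
      ≤ 2 * (K * W ^ 2) := by
    unfold eB eRect
    rw [Finset.sum_product]
    have hin : ∀ x ∈ Finset.Icc (-(m : ℤ)) m,
        ∑ z ∈ Finset.Icc (-(m : ℤ)) m ×ˢ (Finset.univ : Finset Bool),
          (arm half (nrm (src (x, z)) / 2 - 1) ^ 2 * arm half ((src (x, z)).2.natAbs - 1))
        ≤ 2 * (K * (wt x.natAbs * W)) := by
      intro x hx
      rw [Finset.sum_product]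
      have : ∀ y ∈ Finset.Icc (-(m : ℤ)) m, ∑ b : Bool,
          (arm half (nrm (src (x, y, b)) / 2 - 1) ^ 2 * arm half ((src (x, y, b)).2.natAbs - 1))
          ≤ 2 * (K * (wt x.natAbs * wt y.natAbs)) := by
        intro y hy
        have h1 := hterm x hx y hy
        simp only [Fintype.sum_bool, src]
        linarith
      refine (Finset.sum_le_sum this).trans (le_of_eq ?_)
      rw [hW, Finset.mul_sum, Finset.mul_sum, Finset.mul_sum]
    refine (Finset.sum_le_sum hin).trans (le_of_eq ?_)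
    rw [← Finset.mul_sum, ← Finset.mul_sum, ← Finset.sum_mul, pow_two]
  refine hsum.trans ?_
  have hW2 : W ^ 2 ≤ 128 * Real.sqrt m := by
    have h1 : W ^ 2 ≤ (8 * ((m : ℝ) + 1) ^ (1 / 4 : ℝ)) ^ 2 := by gcongr
    have h2 : (((m : ℝ) + 1) ^ (1 / 4 : ℝ)) ^ 2 = Real.sqrt (m + 1) := by
      rw [← Real.rpow_natCast, ← Real.rpow_mul (by positivity), Real.sqrt_eq_rpow]
      norm_num
    have h3 : Real.sqrt ((m : ℝ) + 1) ≤ 2 * Real.sqrt m := by
      rw [show (2 : ℝ) = Real.sqrt 4 by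
        rw [show (4 : ℝ) = 2 ^ 2 by norm_num, Real.sqrt_sq (by norm_num)],
        ← Real.sqrt_mul (by norm_num)]
      apply Real.sqrt_le_sqrt
      linarith
    calc W ^ 2 ≤ 64 * (((m : ℝ) + 1) ^ (1 / 4 : ℝ)) ^ 2 := by rw [mul_pow] at h1; norm_num at h1 ⊢; exact h1
      _ = 64 * Real.sqrt (m + 1) := by rw [h2]
      _ ≤ 64 * (2 * Real.sqrt m) := by gcongr
      _ = _ := by ring
  have hs : Real.sqrt m * Real.sqrt m = m := Real.mul_self_sqrt (by positivity)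
  calc 2 * (K * W ^ 2) ≤ 2 * (K * (128 * Real.sqrt m)) := by gcongr
    _ = 2048 * C ^ 3 * (m * (Real.sqrt m * Real.sqrt m)) * arm half m ^ 3 := by rw [hK]; ring
    _ = 2048 * C ^ 3 * (m : ℝ) ^ 2 * arm half m ^ 3 := by rw [hs]; ring

end Pool.Agent.H85.Gamma
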