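import Pool.Agent.H85.Gamma.Sum

/-!
# Stability of the one-arm probability below the critical point
-/

open MeasureTheory ProbabilityTheory unitInterval Filter Topology

namespace Pool.Agent.H85.Gamma

open Pool.Agent.H89.Perc

/-- Bound for the derivative of the one-arm probability while it is comparable to its critical
value. -/
theorem deriv_bound : ∃ C : ℝ, 0 < C ∧ ∀ m : ℕ, 1 ≤ m → ∀ p : I, (1 / 4 : ℝ) ≤ p →
    (p : ℝ) ≤ 3 / 4 → (∀ k ≤ m, arm p k ≤ 2 * arm half k) →
    (∀ k ≤ m, arm (σ p) k ≤ 2 * arm half k) →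
    ∑ e ∈ eB m, pivot p (Arm 0 m) e ≤ C * m * arm half m ^ 2 := by
  obtain ⟨C, hC, hsum⟩ := arm_sum
  refine ⟨20 * Real.sqrt C, by positivity, ?_⟩
  intro m hm p hp1 hp2 h1 h2
  have ha := arm_nonneg (p := half) (r := m)
  have key := arm_key p m
  set D := ∑ e ∈ eB m, pivot p (Arm 0 m) e with hD
  have hterm : ∀ e ∈ eB m, Pr p (PArm m e) * Pr p (QArm m e)
      ≤ 32 * (arm half (nrm (src e) / 2 - 1) ^ 2 * arm half ((src e).2.natAbs - 1)) := by
    intro e he
    have hb := mem_eB.1 he
    have hb' : nrm (src e) ≤ m := by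
      simp only [mem_ball, Prod.fst_zero, Prod.snd_zero] at hb
      unfold nrm
      omega
    have hy : (src e).2.natAbs ≤ m := le_trans (le_max_right _ _) hb'
    have e1 := Pr_PArm_le p m e
    have e2 := Pr_QArm_le p m e
    have e3 := h1 (nrm (src e) / 2 - 1) (by omega)
    have e4 := h2 ((src e).2.natAbs - 1) (by omega)
    have e5 : Pr p (PArm m e) ≤ 8 * arm half (nrm (src e) / 2 - 1) ^ 2 := by
      refine e1.trans ?_
      have : arm p (nrm (src e) / 2 - 1) ^ 2 ≤ (2 * arm half (nrm (src e) / 2 - 1)) ^ 2 :=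
        pow_le_pow_left₀ arm_nonneg e3 2
      calc 2 * arm p (nrm (src e) / 2 - 1) ^ 2
          ≤ 2 * (2 * arm half (nrm (src e) / 2 - 1)) ^ 2 := by linarith
        _ = _ := by ring
    have e6 : Pr p (QArm m e) ≤ 4 * arm half ((src e).2.natAbs - 1) := by linarith
    calc Pr p (PArm m e) * Pr p (QArm m e)
        ≤ (8 * arm half (nrm (src e) / 2 - 1) ^ 2) * (4 * arm half ((src e).2.natAbs - 1)) :=
          mul_le_mul e5 e6 Pr_nonneg (by positivity)
      _ = _ := by ring
  have hS : ∑ e ∈ eB m, Pr p (PArm m e) * Pr p (QArm m e) ≤ 32 * (C * (m : ℝ) ^ 2 * arm half m ^ 3) := by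
    refine (Finset.sum_le_sum hterm).trans ?_
    rw [← Finset.mul_sum]
    exact mul_le_mul_of_nonneg_left (hsum m hm) (by norm_num)
  have hpq : (3 / 16 : ℝ) ≤ (p : ℝ) * (1 - p) := by nlinarith
  have hD2 : (3 / 16 : ℝ) * D ^ 2 ≤ 64 * (C * (m : ℝ) ^ 2 * arm half m ^ 4) := by
    calc (3 / 16 : ℝ) * D ^ 2 ≤ (p : ℝ) * (1 - p) * D ^ 2 :=
          mul_le_mul_of_nonneg_right hpq (sq_nonneg D)
      _ ≤ arm p m * ∑ e ∈ eB m, Pr p (PArm m e) * Pr p (QArm m e) := key
      _ ≤ (2 * arm half m) * (32 * (C * (m : ℝ) ^ 2 * arm half m ^ 3)) :=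
          mul_le_mul (h1 m le_rfl) hS (Finset.sum_nonneg fun e _ => mul_nonneg Pr_nonneg Pr_nonneg)
            (by positivity)
      _ = _ := by ring
  have hsq : D ^ 2 ≤ (20 * Real.sqrt C * m * arm half m ^ 2) ^ 2 := by
    have : (20 * Real.sqrt C * m * arm half m ^ 2) ^ 2
        = 400 * (Real.sqrt C ^ 2) * (m : ℝ) ^ 2 * arm half m ^ 4 := by ring
    rw [this, Real.sq_sqrt hC.le]
    have h0 : 0 ≤ C * (m : ℝ) ^ 2 * arm half m ^ 4 := by positivity
    linarith
  exact le_of_sq_le_sq hsq (by positivity)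

/-- The one-arm probability as a polynomial. -/
noncomputable def G (k : ℕ) (x : ℝ) : ℝ := PrR (eB k) (Arm 0 k) x

theorem arm_eq_G (p : I) (k : ℕ) : arm p k = G k p := Pr_eq_PrR (localOn_arm0 k) p

theorem continuous_G (k : ℕ) : Continuous (G k) := Pool.Agent.Perc.continuous_Ex _ _

theorem hasDerivAt_G (k : ℕ) (p : I) : HasDerivAt (G k) (∑ e ∈ eB k, pivot p (Arm 0 k) e) (p : ℝ) :=
  hasDerivAt_PrR (localOn_arm0 k) p

theorem half_coe : ((half : I) : ℝ) = 1 / 2 := rfl

/-- `m π(m) ≤ C n π(n)` for `m ≤ n`. -/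
theorem mul_arm_mono : ∃ C : ℝ, 1 ≤ C ∧ ∀ m n : ℕ, 1 ≤ m → m ≤ n →
    m * arm half m ≤ C * (n * arm half n) := by
  obtain ⟨C, hC, hreg⟩ := arm_reg
  refine ⟨C, hC, ?_⟩
  intro m n hm hmn
  have hmp : (0 : ℝ) < m := by exact_mod_cast hm
  have hnp : (0 : ℝ) < n := by exact_mod_cast (hm.trans hmn)
  have hmn' : (m : ℝ) ≤ n := by exact_mod_cast hmn
  have h1 := hreg m n (hm.trans hmn) hmn
  have h2 : (m : ℝ) * Real.sqrt (n / (m + 1)) ≤ n := by
    have h3 : (m : ℝ) * Real.sqrt (n / (m + 1)) = Real.sqrt (m ^ 2 * (n / (m + 1))) := by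
      rw [Real.sqrt_mul (by positivity), Real.sqrt_sq hmp.le]
    rw [h3]
    apply Real.sqrt_le_iff.2
    refine ⟨hnp.le, ?_⟩
    rw [← mul_div_assoc, div_le_iff₀ (by positivity)]
    have : (m : ℝ) ^ 2 ≤ n * (m + 1) := by nlinarith
    nlinarith
  calc (m : ℝ) * arm half m ≤ m * (C * Real.sqrt (n / (m + 1)) * arm half n) := by gcongr
    _ = C * ((m * Real.sqrt (n / (m + 1))) * arm half n) := by ring
    _ ≤ C * (n * arm half n) := by
        gcongr
        exact arm_nonneg

/-- Stability above and below the critical point. -/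
theorem window : ∃ c : ℝ, 0 < c ∧ ∀ n : ℕ, 1 ≤ n → ∀ q : I, (q : ℝ) ≤ 1 / 2 →
    1 / 2 - (q : ℝ) ≤ c / (n * arm half n) → arm half n / 2 ≤ arm q n := by
  obtain ⟨Cd, hCd, hder⟩ := deriv_bound
  obtain ⟨C', hC', hmono⟩ := mul_arm_mono
  have ha1 := arm_half_pos 1
  set c : ℝ := min (1 / (2 * Cd * C')) (arm half 1 / (4 * C')) with hc
  have hcp : 0 < c := lt_min (by positivity) (by positivity)
  have hc1 : c * (Cd * C') ≤ 1 / 2 := by
    have : c ≤ 1 / (2 * Cd * C') := min_le_left _ _
    calc c * (Cd * C') ≤ 1 / (2 * Cd * C') * (Cd * C') := by gcongr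
      _ = 1 / 2 := by field_simp
  have hc2 : c * C' ≤ arm half 1 / 4 := by
    have : c ≤ arm half 1 / (4 * C') := min_le_right _ _
    calc c * C' ≤ arm half 1 / (4 * C') * C' := by gcongr
      _ = arm half 1 / 4 := by field_simp
  refine ⟨c, hcp, ?_⟩
  intro n hn q hq hqc
  have hnp : (0 : ℝ) < n := by exact_mod_cast hn
  have hapos : ∀ k, 0 < arm half k := arm_half_pos
  set δ : ℝ := c / (n * arm half n) with hδ
  have hδp : 0 < δ := by have := hapos n; positivity
  have hδle : δ ≤ 1 / 4 := by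
    have h1 := hmono 1 n le_rfl hn
    have h2 := hapos n
    rw [hδ, div_le_iff₀ (by positivity)]
    push_cast at h1
    have h3 : arm half 1 / 4 ≤ C' * (n * arm half n) / 4 := by linarith
    have h4 : c * C' ≤ C' * (1 / 4 * (n * arm half n)) := by linarith
    nlinarith
  -- the crucial smallness
  have hsmall : ∀ k : ℕ, 1 ≤ k → k ≤ n → Cd * k * arm half k ^ 2 * δ ≤ arm half k / 2 := by
    intro k hk hkn
    have h1 := hmono k n hk hkn
    have h2 := hapos n
    have h3 := hapos k
    have h4 : (k : ℝ) * arm half k * δ ≤ C' * c := by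
      rw [hδ, ← mul_div_assoc, div_le_iff₀ (by positivity)]
      nlinarith
    calc Cd * k * arm half k ^ 2 * δ = (Cd * (k * arm half k * δ)) * arm half k := by ring
      _ ≤ (Cd * (C' * c)) * arm half k := by gcongr
      _ = (c * (Cd * C')) * arm half k := by ring
      _ ≤ (1 / 2) * arm half k := by gcongr
      _ = _ := by ring
  -- mean value bound
  have mvt : ∀ k : ℕ, 1 ≤ k → k ≤ n → ∀ x y : ℝ, 1 / 4 ≤ x → x ≤ y → y ≤ 3 / 4 → y - x ≤ δ →
      (∀ z : I, x ≤ z → (z : ℝ) ≤ y → (∀ j ≤ k, arm z j ≤ 2 * arm half j) ∧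
        (∀ j ≤ k, arm (σ z) j ≤ 2 * arm half j)) → G k y - G k x ≤ arm half k / 2 := by
    intro k hk hkn x y hx hxy hy hyx hz
    have hI : ∀ w ∈ Set.Icc x y, w ∈ I := fun w hw => ⟨by linarith [hw.1], by linarith [hw.2]⟩
    have hbound := Convex.image_sub_le_mul_sub_of_deriv_le (convex_Icc x y)
      (continuous_G k).continuousOn
      (fun w hw => by
        rw [interior_Icc] at hw
        exact (hasDerivAt_G k ⟨w, hI w ⟨hw.1.le, hw.2.le⟩⟩).differentiableAt.differentiableWithinAt)
      (C := Cd * k * arm half k ^ 2)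
      (fun w hw => by
        rw [interior_Icc] at hw
        have hw' : w ∈ I := hI w ⟨hw.1.le, hw.2.le⟩
        rw [(hasDerivAt_G k ⟨w, hw'⟩).deriv]
        obtain ⟨h1, h2⟩ := hz ⟨w, hw'⟩ hw.1.le hw.2.le
        exact hder k hk ⟨w, hw'⟩ (by simp only; linarith [hw.1]) (by simp only; linarith [hw.2])
          h1 h2)
      x ⟨le_rfl, hxy⟩ y ⟨hxy, le_rfl⟩ hxy
    have h3 := hapos k
    calc G k y - G k x ≤ Cd * k * arm half k ^ 2 * (y - x) := hbound
      _ ≤ Cd * k * arm half k ^ 2 * δ := by gcongr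
      _ ≤ _ := hsmall k hk hkn
  -- upper window by continuous induction
  have upper : ∀ x ∈ Set.Icc (1 / 2 : ℝ) (1 / 2 + δ), ∀ k ≤ n, G k x ≤ 3 / 2 * arm half k := by
    have hclosed : IsClosed ({x : ℝ | ∀ k ≤ n, G k x ≤ 3 / 2 * arm half k}
        ∩ Set.Icc (1 / 2 : ℝ) (1 / 2 + δ)) := by
      refine IsClosed.inter ?_ isClosed_Icc
      have : {x : ℝ | ∀ k ≤ n, G k x ≤ 3 / 2 * arm half k}
          = ⋂ k, ⋂ (_ : k ≤ n), {x : ℝ | G k x ≤ 3 / 2 * arm half k} := by
        ext x; simp
      rw [this]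
      exact isClosed_iInter fun k => isClosed_iInter fun _ =>
        isClosed_le (continuous_G k) continuous_const
    have hstart : (1 / 2 : ℝ) ∈ {x : ℝ | ∀ k ≤ n, G k x ≤ 3 / 2 * arm half k} := by
      intro k _
      have h1 := arm_eq_G half k
      rw [half_coe] at h1
      rw [← h1]
      have := hapos k
      linarith
    have hsub := hclosed.Icc_subset_of_forall_mem_nhdsWithin hstart ?_
    · exact fun x hx => hsub hx
    rintro x ⟨hxs, hx1, hx2⟩
    -- nearby points satisfy the weaker bound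
    have hev : ∀ᶠ y in 𝓝 x, ∀ k ∈ Finset.range (n + 1), G k y < 2 * arm half k := by
      rw [Filter.eventually_all_finset]
      intro k hk
      have hk' : k ≤ n := by rw [Finset.mem_range] at hk; omega
      refine (continuous_G k).continuousAt.eventually_lt continuousAt_const ?_
      have h1 := hxs k hk'
      have h2 := hapos k
      linarith
    have hev2 : ∀ᶠ y in 𝓝[>] x, (∀ k ∈ Finset.range (n + 1), G k y < 2 * arm half k) ∧
        x < y ∧ y < 1 / 2 + δ := by
      refine (hev.filter_mono nhdsWithin_le_nhds).and ?_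
      refine Filter.Eventually.and (eventually_mem_nhdsWithin) ?_
      exact (eventually_lt_nhds hx2).filter_mono nhdsWithin_le_nhds
    filter_upwards [hev2] with y hy
    obtain ⟨hy1, hy2, hy3⟩ := hy
    intro k hk
    have hyI : y ∈ I := ⟨by linarith, by linarith⟩
    rcases Nat.eq_zero_or_pos k with h0 | hkp
    · subst h0
      have h1 := arm_eq_G ⟨y, hyI⟩ 0
      simp only at h1
      rw [← h1, arm_zero, arm_zero]
      norm_num
    have hG := mvt k hkp hk (1 / 2) y (by norm_num) (by linarith) (by linarith) (by linarith) ?_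
    · have h1 := arm_eq_G half k
      rw [half_coe] at h1
      rw [← h1] at hG
      linarith
    · intro z hz1 hz2
      constructor
      · intro j hj
        have h1 : arm z j ≤ arm ⟨y, hyI⟩ j := arm_mono_param j hz2
        have h2 := arm_eq_G ⟨y, hyI⟩ j
        have h3 := hy1 j (by rw [Finset.mem_range]; omega)
        simp only at h2
        linarith
      · intro j hj
        have h1 : arm (σ z) j ≤ arm half j := by
          refine arm_mono_param j ?_
          show ((σ z : I) : ℝ) ≤ ((half : I) : ℝ)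
          rw [half_coe, unitInterval.coe_symm_eq]
          linarith
        have := hapos j
        linarith
  -- lower window
  have hq0 : 1 / 2 - δ ≤ (q : ℝ) := by linarith
  have hG := mvt n hn le_rfl (q : ℝ) (1 / 2) (by linarith) hq (by norm_num) (by linarith) ?_
  · have h1 := arm_eq_G half n
    rw [half_coe] at h1
    rw [← h1, ← arm_eq_G q n] at hG
    linarith
  · intro z hz1 hz2
    constructor
    · intro j _
      have h1 : arm z j ≤ arm half j := by
        refine arm_mono_param j ?_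
        show ((z : I) : ℝ) ≤ ((half : I) : ℝ)
        rw [half_coe]
        exact hz2
      have := hapos j
      linarith
    · intro j hj
      have h1 := upper ((σ z : I) : ℝ) ⟨by rw [unitInterval.coe_symm_eq]; linarith,
        by rw [unitInterval.coe_symm_eq]; linarith⟩ j hj
      rw [← arm_eq_G] at h1
      have := hapos j
      linarith

end Pool.Agent.H85.Gamma
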